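import Mathlib

/-!
# Gaussian mean values of exponential sums
-/

set_option autoImplicit false

namespace Pool.Agent.TH201.LW

open Finset MeasureTheory ProbabilityTheory Complex

/-- the exponential sum with the frequencies `ω x`, `x ∈ s` -/
noncomputable def es {ι : Type*} (s : Finset ι) (ω : ι → ℝ) (t : ℝ) : ℂ :=
  ∑ x ∈ s, Complex.exp ((ω x * t : ℝ) * I)

theorem es_cont {ι : Type*} (s : Finset ι) (ω : ι → ℝ) : Continuous (es s ω) := by
  unfold es
  refine continuous_finsetSum _ fun x _ => ?_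
  fun_prop

theorem norm_exp_I (x : ℝ) : ‖Complex.exp ((x : ℝ) * I)‖ = 1 := Complex.norm_exp_ofReal_mul_I x

theorem es_norm_le {ι : Type*} (s : Finset ι) (ω : ι → ℝ) (t : ℝ) : ‖es s ω t‖ ≤ s.card := by
  unfold es
  refine (norm_sum_le _ _).trans ?_
  simp only [Complex.norm_exp_ofReal_mul_I]
  simp

/-- the Gaussian weight -/
noncomputable abbrev gw (v : NNReal) : Measure ℝ := gaussianReal 0 v

theorem int_exp (v : NNReal) (w : ℝ) :
    ∫ t, Complex.exp ((w * t : ℝ) * I) ∂(gw v) = (Real.exp (-(v * w ^ 2 / 2)) : ℝ) := by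
  have h := charFun_gaussianReal (μ := 0) (v := v) w
  rw [charFun_apply_real] at h
  have e : ∀ t : ℝ, Complex.exp ((w * t : ℝ) * I) = Complex.exp ((w : ℂ) * (t : ℂ) * I) := by
    intro t
    push_cast
    rfl
  simp_rw [e]
  rw [h]
  push_cast
  congr 1
  ring

theorem integrable_bdd (v : NNReal) (f : ℝ → ℂ) (hf : Continuous f) (C : ℝ)
    (hC : ∀ t, ‖f t‖ ≤ C) : Integrable f (gw v) :=
  Integrable.of_bound hf.aestronglyMeasurable C (Filter.Eventually.of_forall hC)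

theorem int_es {ι : Type*} (v : NNReal) (s : Finset ι) (ω : ι → ℝ) :
    ∫ t, es s ω t ∂(gw v) = ((∑ x ∈ s, Real.exp (-(v * (ω x) ^ 2 / 2)) : ℝ) : ℂ) := by
  unfold es
  rw [integral_finsetSum]
  · push_cast
    refine sum_congr rfl fun x _ => ?_
    have := int_exp v (ω x)
    push_cast at this ⊢
    exact this
  · intro x _
    refine integrable_bdd v _ (by fun_prop) 1 fun t => ?_
    exact (Complex.norm_exp_ofReal_mul_I _).le

/-- first moment from below -/
theorem first_moment {ι : Type*} (v : NNReal) (s : Finset ι) (ω : ι → ℝ) :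
    ∑ x ∈ s, Real.exp (-(v * (ω x) ^ 2 / 2)) ≤ ∫ t, ‖es s ω t‖ ∂(gw v) := by
  have h1 := int_es v s ω
  have h2 : ‖∫ t, es s ω t ∂(gw v)‖ ≤ ∫ t, ‖es s ω t‖ ∂(gw v) := norm_integral_le_integral_norm _
  rw [h1, Complex.norm_real, Real.norm_of_nonneg (sum_nonneg fun x _ => (Real.exp_pos _).le)] at h2
  exact h2

/-- second moment -/
theorem second_moment {ι : Type*} (v : NNReal) (s : Finset ι) (ω : ι → ℝ) :
    ∫ t, ‖es s ω t‖ ^ 2 ∂(gw v) =
      ∑ x ∈ s, ∑ y ∈ s, Real.exp (-(v * (ω x - ω y) ^ 2 / 2)) := by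
  have e1 : ∀ t, ((‖es s ω t‖ ^ 2 : ℝ) : ℂ) =
      es (s ×ˢ s) (fun p : ι × ι => ω p.1 - ω p.2) t := by
    intro t
    have e2 : ((‖es s ω t‖ ^ 2 : ℝ) : ℂ) = es s ω t * (starRingEnd ℂ) (es s ω t) := by
      rw [Complex.mul_conj, Complex.normSq_eq_norm_sq]
    rw [e2]
    unfold es
    rw [map_sum, sum_mul_sum, sum_product]
    refine sum_congr rfl fun x _ => sum_congr rfl fun y _ => ?_
    rw [← Complex.exp_conj, ← Complex.exp_add]
    congr 1
    simp only [map_mul, Complex.conj_ofReal, Complex.conj_I]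
    push_cast
    ring
  have h1 := int_es v (s ×ˢ s) (fun p : ι × ι => ω p.1 - ω p.2)
  have h2 : ((∫ t, ‖es s ω t‖ ^ 2 ∂(gw v) : ℝ) : ℂ) =
      ∫ t, es (s ×ˢ s) (fun p : ι × ι => ω p.1 - ω p.2) t ∂(gw v) := by
    rw [← integral_complex_ofReal]
    refine integral_congr_ae (Filter.Eventually.of_forall fun t => ?_)
    exact e1 t
  rw [h1] at h2
  have h3 := Complex.ofReal_injective h2
  rw [h3, sum_product]

/-- the power of a sum of exponentials is such a sum -/
theorem es_pow {ι : Type*} [DecidableEq ι] (s : Finset ι) (ω : ι → ℝ) (k : ℕ) (t : ℝ) :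
    es s ω t ^ k = es (Fintype.piFinset fun _ : Fin k => s) (fun x => ∑ i, ω (x i)) t := by
  unfold es
  rw [Finset.sum_pow']
  refine sum_congr rfl fun x _ => ?_
  rw [← Complex.exp_sum]
  congr 1
  push_cast
  rw [sum_mul, sum_mul]

/-- products of exponential sums -/
theorem es_prod {κ ι : Type*} [Fintype κ] [DecidableEq κ] (s : κ → Finset ι) (ω : κ → ι → ℝ)
    (t : ℝ) : ∏ j, es (s j) (ω j) t =
      es (Fintype.piFinset s) (fun x => ∑ j, ω j (x j)) t := by
  unfold es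
  rw [Finset.prod_univ_sum]
  refine sum_congr rfl fun x _ => ?_
  rw [← Complex.exp_sum]
  congr 1
  push_cast
  rw [sum_mul, sum_mul]

/-- moments of order `2 k` -/
theorem even_moment {ι : Type*} [DecidableEq ι] (v : NNReal) (s : Finset ι) (ω : ι → ℝ) (k : ℕ) :
    ∫ t, ‖es s ω t‖ ^ (2 * k) ∂(gw v) =
      ∑ x ∈ Fintype.piFinset fun _ : Fin k => s, ∑ y ∈ Fintype.piFinset fun _ : Fin k => s,
        Real.exp (-(v * (∑ i, ω (x i) - ∑ i, ω (y i)) ^ 2 / 2)) := by
  rw [← second_moment]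
  refine integral_congr_ae (Filter.Eventually.of_forall fun t => ?_)
  simp only
  rw [← es_pow, norm_pow, ← pow_mul, mul_comm]

/-- Hölder's inequality for products of at most `2 k` exponential sums -/
theorem holder {κ ι : Type*} [Fintype κ] (v : NNReal) (s : κ → Finset ι) (ω : κ → ι → ℝ) (k : ℕ)
    (hk : 1 ≤ k) (hκ : Fintype.card κ ≤ 2 * k) :
    ∫ t, ∏ j, ‖es (s j) (ω j) t‖ ∂(gw v) ≤
      ∏ j, (∫ t, ‖es (s j) (ω j) t‖ ^ (2 * k) ∂(gw v)) ^ ((1 : ℝ) / (2 * k)) := by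
  have hkpos : (0 : ℝ) < 2 * k := by positivity
  have hcont : ∀ j, Continuous fun t => ‖es (s j) (ω j) t‖ := fun j => (es_cont _ _).norm
  have hmom : ∀ j, ∫⁻ t, ENNReal.ofReal (‖es (s j) (ω j) t‖ ^ (2 * k)) ∂(gw v) =
      ENNReal.ofReal (∫ t, ‖es (s j) (ω j) t‖ ^ (2 * k) ∂(gw v)) := by
    intro j
    rw [ofReal_integral_eq_lintegral_ofReal]
    · refine Integrable.of_bound ((hcont j).pow _).aestronglyMeasurable
        (((s j).card : ℝ) ^ (2 * k)) (Filter.Eventually.of_forall fun t => ?_)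
      rw [Real.norm_of_nonneg (by positivity)]
      exact pow_le_pow_left₀ (norm_nonneg _) (es_norm_le _ _ _) _
    · exact Filter.Eventually.of_forall fun t => by positivity
  have hint : ∫⁻ t, ENNReal.ofReal (∏ j, ‖es (s j) (ω j) t‖) ∂(gw v) =
      ENNReal.ofReal (∫ t, ∏ j, ‖es (s j) (ω j) t‖ ∂(gw v)) := by
    rw [ofReal_integral_eq_lintegral_ofReal]
    · refine Integrable.of_bound
        (continuous_finsetProd _ fun j _ => hcont j).aestronglyMeasurable
        (∏ j, ((s j).card : ℝ)) (Filter.Eventually.of_forall fun t => ?_)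
      rw [Real.norm_of_nonneg (prod_nonneg fun j _ => norm_nonneg _)]
      exact prod_le_prod (fun j _ => norm_nonneg _) fun j _ => es_norm_le _ _ _
    · exact Filter.Eventually.of_forall fun t => prod_nonneg fun j _ => norm_nonneg _
  have hpt : ∀ t, ENNReal.ofReal (∏ j, ‖es (s j) (ω j) t‖) =
      (1 : ENNReal) ^ (1 - (Fintype.card κ : ℝ) / (2 * k)) *
        ∏ j ∈ univ, (ENNReal.ofReal (‖es (s j) (ω j) t‖ ^ (2 * k))) ^ ((1 : ℝ) / (2 * k)) := by
    intro t
    rw [ENNReal.one_rpow, one_mul, ENNReal.ofReal_prod_of_nonneg fun j _ => norm_nonneg _]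
    refine prod_congr rfl fun j _ => ?_
    rw [ENNReal.ofReal_rpow_of_nonneg (by positivity) (by positivity), ← Real.rpow_natCast,
      ← Real.rpow_mul (norm_nonneg _)]
    congr 1
    have : ((2 * k : ℕ) : ℝ) * (1 / (2 * k)) = 1 := by
      push_cast
      field_simp
    rw [this, Real.rpow_one]
  have key := ENNReal.lintegral_mul_prod_norm_pow_le (μ := gw v) univ
    (g := fun _ => (1 : ENNReal))
    (f := fun j t => ENNReal.ofReal (‖es (s j) (ω j) t‖ ^ (2 * k))) aemeasurable_const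
    (fun j _ => (((hcont j).pow _).measurable.ennreal_ofReal).aemeasurable)
    (1 - (Fintype.card κ : ℝ) / (2 * k)) (p := fun _ => (1 : ℝ) / (2 * k))
    (by
      rw [sum_const, card_univ, nsmul_eq_mul]
      ring)
    (by
      rw [sub_nonneg, div_le_one hkpos]
      exact_mod_cast hκ)
    (fun j _ => by positivity)
  have hone : ∫⁻ _ : ℝ, (1 : ENNReal) ∂(gw v) = 1 := by
    rw [lintegral_one]
    exact measure_univ
  rw [hone] at key
  simp only [ENNReal.one_rpow, one_mul] at key hpt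
  have key : ENNReal.ofReal (∫ t, ∏ j, ‖es (s j) (ω j) t‖ ∂(gw v)) ≤
      ∏ j ∈ univ, (ENNReal.ofReal (∫ t, ‖es (s j) (ω j) t‖ ^ (2 * k) ∂(gw v))) ^
        ((1 : ℝ) / (2 * k)) := by
    calc ENNReal.ofReal (∫ t, ∏ j, ‖es (s j) (ω j) t‖ ∂(gw v)) = _ := hint.symm
      _ = _ := lintegral_congr hpt
      _ ≤ ∏ j ∈ univ, (∫⁻ t, ENNReal.ofReal (‖es (s j) (ω j) t‖ ^ (2 * k)) ∂(gw v)) ^
          ((1 : ℝ) / (2 * k)) := key
      _ = _ := prod_congr rfl fun j _ => by rw [hmom j]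
  have hnn : ∀ j, 0 ≤ ∫ t, ‖es (s j) (ω j) t‖ ^ (2 * k) ∂(gw v) := fun j =>
    integral_nonneg fun t => by positivity
  have hr : ∏ j ∈ univ, (ENNReal.ofReal (∫ t, ‖es (s j) (ω j) t‖ ^ (2 * k) ∂(gw v))) ^
      ((1 : ℝ) / (2 * k)) =
      ENNReal.ofReal (∏ j, (∫ t, ‖es (s j) (ω j) t‖ ^ (2 * k) ∂(gw v)) ^ ((1 : ℝ) / (2 * k))) := by
    rw [ENNReal.ofReal_prod_of_nonneg fun j _ => Real.rpow_nonneg (hnn j) _]
    refine prod_congr rfl fun j _ => ?_
    rw [ENNReal.ofReal_rpow_of_nonneg (hnn j) (by positivity)]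
  rw [hr] at key
  exact (ENNReal.ofReal_le_ofReal_iff (prod_nonneg fun j _ => Real.rpow_nonneg (hnn j) _)).1 key

end Pool.Agent.TH201.LW
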