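import Mathlib
import Pool.Agent.TH201.LW.Mean

/-!
# Integer points in dyadic boxes at which a linear form in logarithms is small
-/

set_option autoImplicit false

namespace Pool.Agent.TH201.LW

open Finset MeasureTheory ProbabilityTheory Complex

/-- the number of factorizations -/
theorem card_fact (s : Finset ℕ) (k N : ℕ) (hN : 1 ≤ N) :
    (((Fintype.piFinset fun _ : Fin k => s).filter fun y => ∏ i, y i = N).card : ℕ) ≤
      N.divisors.card ^ k := by
  classical
  have h : ((Fintype.piFinset fun _ : Fin k => s).filter fun y => ∏ i, y i = N) ⊆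
      Fintype.piFinset fun _ : Fin k => N.divisors := by
    intro y hy
    rw [mem_filter] at hy
    rw [Fintype.mem_piFinset]
    intro i
    rw [Nat.mem_divisors]
    exact ⟨hy.2 ▸ dvd_prod_of_mem _ (mem_univ i), by omega⟩
  refine (card_le_card h).trans ?_
  rw [Fintype.card_piFinset, prod_const, card_univ, Fintype.card_fin]

theorem log_sep (X Y M : ℕ) (hX : 1 ≤ X) (hY : 1 ≤ Y) (hXM : X ≤ M) (hYM : Y ≤ M) (hne : X ≠ Y) :
    1 / (M : ℝ) ≤ |Real.log X - Real.log Y| := by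
  wlog h : Y < X generalizing X Y with H
  · rw [abs_sub_comm]
    exact H Y X hY hX hYM hXM hne.symm (by omega)
  have hX0 : (0 : ℝ) < X := by exact_mod_cast hX
  have hY0 : (0 : ℝ) < Y := by exact_mod_cast hY
  have hM0 : (0 : ℝ) < M := by exact_mod_cast (hX.trans hXM)
  refine le_trans ?_ (le_abs_self _)
  rw [← Real.log_div hX0.ne' hY0.ne']
  have h2 := Real.one_sub_inv_le_log_of_pos (div_pos hX0 hY0)
  rw [inv_div] at h2
  refine le_trans ?_ h2
  have h3 : (Y : ℝ) + 1 ≤ X := by exact_mod_cast h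
  have h4 : 1 - (Y : ℝ) / X = (X - Y) / X := by field_simp
  rw [h4, div_le_div_iff₀ hM0 hX0]
  have h5 : (X : ℝ) ≤ M := by exact_mod_cast hXM
  nlinarith

/-- the moment of order `2 k` of a dyadic Dirichlet polynomial -/
theorem moment (T A k : ℕ) (hT : 1 ≤ T) (hTA : T ≤ A) (β W M : ℝ) (hβ : 1 ≤ |β|)
    (hW : 0 ≤ W) (v : NNReal) (hv : (W * (2 * A : ℝ) ^ k) ^ 2 ≤ v)
    (hM : ∀ N : ℕ, 1 ≤ N → N ≤ (2 * A) ^ k →
      ((N.divisors.card : ℝ)) ^ k + (A : ℝ) ^ k * Real.exp (-(W ^ 2 / 2)) ≤ M) :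
    ∫ t, ‖es (Ico T (2 * T)) (fun a : ℕ => β * Real.log a) t‖ ^ (2 * k) ∂(gw v) ≤
      (A : ℝ) ^ k * M := by
  classical
  rw [even_moment]
  set B : Finset (Fin k → ℕ) := Fintype.piFinset fun _ : Fin k => Ico T (2 * T) with hB
  have hBc : B.card = T ^ k := by
    rw [hB, Fintype.card_piFinset, prod_const, card_univ, Fintype.card_fin, Nat.card_Ico]
    congr 1
    omega
  have hBc' : (B.card : ℝ) ≤ (A : ℝ) ^ k := by
    rw [hBc]
    push_cast
    exact pow_le_pow_left₀ (by positivity) (by exact_mod_cast hTA) _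
  have hprod : ∀ x ∈ B, 1 ≤ ∏ i, x i ∧ ∏ i, x i ≤ (2 * A) ^ k := by
    intro x hx
    rw [hB, Fintype.mem_piFinset] at hx
    constructor
    · refine Nat.one_le_iff_ne_zero.2 (prod_ne_zero_iff.2 fun i _ => ?_)
      have := (mem_Ico.1 (hx i)).1
      omega
    · calc ∏ i, x i ≤ ∏ _i : Fin k, (2 * A) := prod_le_prod' fun i _ => by
            have := (mem_Ico.1 (hx i)).2
            omega
        _ = (2 * A) ^ k := by rw [prod_const, card_univ, Fintype.card_fin]
  have hlog : ∀ x ∈ B, ∑ i, β * Real.log (x i : ℕ) = β * Real.log ((∏ i, x i : ℕ) : ℝ) := by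
    intro x hx
    rw [hB, Fintype.mem_piFinset] at hx
    rw [← mul_sum]
    congr 1
    push_cast
    rw [Real.log_prod fun i _ => ?_]
    have := (mem_Ico.1 (hx i)).1
    have h2 : x i ≠ 0 := by omega
    exact_mod_cast h2
  have hA0 : (0 : ℝ) < (2 * A : ℝ) ^ k := by
    have : (1 : ℝ) ≤ A := by exact_mod_cast hT.trans hTA
    positivity
  have hterm : ∀ x ∈ B, ∀ y ∈ B,
      Real.exp (-(v * (∑ i, β * Real.log (x i : ℕ) - ∑ i, β * Real.log (y i : ℕ)) ^ 2 / 2)) ≤
        (if ∏ i, y i = ∏ i, x i then 1 else 0) + Real.exp (-(W ^ 2 / 2)) := by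
    intro x hx y hy
    by_cases h : ∏ i, y i = ∏ i, x i
    · rw [if_pos h]
      have h1 : Real.exp (-(v * (∑ i, β * Real.log (x i : ℕ) -
          ∑ i, β * Real.log (y i : ℕ)) ^ 2 / 2)) ≤ 1 := by
        rw [Real.exp_le_one_iff]
        have : 0 ≤ (v : ℝ) := v.2
        have h2 : 0 ≤ (v : ℝ) * (∑ i, β * Real.log (x i : ℕ) -
          ∑ i, β * Real.log (y i : ℕ)) ^ 2 / 2 := by positivity
        linarith
      have := (Real.exp_pos (-(W ^ 2 / 2))).le
      linarith
    · rw [if_neg h, zero_add, Real.exp_le_exp, neg_le_neg_iff, hlog x hx, hlog y hy, ← mul_sub,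
        mul_pow]
      have hx' := hprod x hx
      have hy' := hprod y hy
      have h1 := log_sep (∏ i, x i) (∏ i, y i) ((2 * A) ^ k) hx'.1 hy'.1 hx'.2 hy'.2
        (fun e => h e.symm)
      push_cast at h1
      have h2 : (1 / (2 * A : ℝ) ^ k) ^ 2 ≤
          (Real.log ((∏ i, x i : ℕ) : ℝ) - Real.log ((∏ i, y i : ℕ) : ℝ)) ^ 2 := by
        rw [← sq_abs (Real.log ((∏ i, x i : ℕ) : ℝ) - Real.log ((∏ i, y i : ℕ) : ℝ))]
        push_cast
        exact pow_le_pow_left₀ (by positivity) h1 2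
      have h3 : 1 ≤ β ^ 2 := by
        rw [← sq_abs]
        nlinarith
      have h4 : W ^ 2 ≤ v * (1 / (2 * A : ℝ) ^ k) ^ 2 := by
        rw [mul_pow] at hv
        rw [one_div, inv_pow, ← div_eq_mul_inv, le_div_iff₀ (by positivity)]
        exact hv
      have h5 : v * (1 / (2 * A : ℝ) ^ k) ^ 2 ≤ v * (β ^ 2 *
          (Real.log ((∏ i, x i : ℕ) : ℝ) - Real.log ((∏ i, y i : ℕ) : ℝ)) ^ 2) := by
        apply mul_le_mul_of_nonneg_left _ v.2
        nlinarith [sq_nonneg (Real.log ((∏ i, x i : ℕ) : ℝ) - Real.log ((∏ i, y i : ℕ) : ℝ))]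
      linarith
  have hrow : ∀ x ∈ B, ∑ y ∈ B,
      Real.exp (-(v * (∑ i, β * Real.log (x i : ℕ) - ∑ i, β * Real.log (y i : ℕ)) ^ 2 / 2)) ≤
        M := by
    intro x hx
    refine (sum_le_sum fun y hy => hterm x hx y hy).trans ?_
    rw [sum_add_distrib, sum_const, nsmul_eq_mul, ← sum_filter, sum_const, nsmul_eq_mul, mul_one]
    have h1 := card_fact (Ico T (2 * T)) k (∏ i, x i) (hprod x hx).1
    have h2 : (((B.filter fun y => ∏ i, y i = ∏ i, x i).card : ℕ) : ℝ) ≤
        ((∏ i, x i).divisors.card : ℝ) ^ k := by exact_mod_cast h1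
    have h3 : (B.card : ℝ) * Real.exp (-(W ^ 2 / 2)) ≤ (A : ℝ) ^ k * Real.exp (-(W ^ 2 / 2)) :=
      mul_le_mul_of_nonneg_right hBc' (Real.exp_pos _).le
    have h4 := hM _ (hprod x hx).1 (hprod x hx).2
    linarith
  calc _ ≤ ∑ _x ∈ B, M := sum_le_sum hrow
    _ = B.card * M := by rw [sum_const, nsmul_eq_mul]
    _ ≤ (A : ℝ) ^ k * M := by
        apply mul_le_mul_of_nonneg_right hBc'
        have h := hM 1 le_rfl (Nat.one_le_pow _ _ (by omega))
        refine le_trans ?_ h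
        positivity

/-- the number of points in a dyadic box by mean values -/
theorem box_mean {κ : Type*} [Fintype κ] [DecidableEq κ] [Nonempty κ] (T : κ → ℕ) (A k : ℕ)
    (hk : 1 ≤ k) (hκ : Fintype.card κ ≤ 2 * k) (hT : ∀ j, 1 ≤ T j) (hTA : ∀ j, T j ≤ A)
    (β : κ → ℝ) (τ W M : ℝ) (hβ : ∀ j, 1 ≤ |β j|) (hW : 0 ≤ W) (hM1 : 1 ≤ M)
    (v : NNReal) (hv : (W * (2 * A : ℝ) ^ k) ^ 2 ≤ v)
    (hM : ∀ N : ℕ, 1 ≤ N → N ≤ (2 * A) ^ k →
      ((N.divisors.card : ℝ)) ^ k + (A : ℝ) ^ k * Real.exp (-(W ^ 2 / 2)) ≤ M)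
    (S : Finset (κ → ℕ)) (hS : S ⊆ Fintype.piFinset fun j => Ico (T j) (2 * T j))
    (hsm : ∀ a ∈ S, v * (∑ j, β j * Real.log (a j) + τ) ^ 2 ≤ 1) :
    (S.card : ℝ) ≤ 2 * ((A : ℝ) ^ ((Fintype.card κ : ℝ) / 2) * M) := by
  classical
  set Box : Finset (κ → ℕ) := Fintype.piFinset fun j => Ico (T j) (2 * T j) with hBox
  set ω : (κ → ℕ) → ℝ := fun x => ∑ j, β j * Real.log (x j) + τ with hω
  have hA1 : (1 : ℝ) ≤ A := by
    obtain ⟨j⟩ := ‹Nonempty κ›
    exact_mod_cast (hT j).trans (hTA j)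
  -- lower bound
  have h1 : (S.card : ℝ) * Real.exp (-(1 / 2)) ≤
      ∑ x ∈ Box, Real.exp (-(v * (ω x) ^ 2 / 2)) := by
    calc (S.card : ℝ) * Real.exp (-(1 / 2)) = ∑ _x ∈ S, Real.exp (-(1 / 2)) := by
          rw [sum_const, nsmul_eq_mul]
      _ ≤ ∑ x ∈ S, Real.exp (-(v * (ω x) ^ 2 / 2)) := by
          refine sum_le_sum fun x hx => ?_
          rw [Real.exp_le_exp, neg_le_neg_iff]
          have := hsm x hx
          linarith
      _ ≤ _ := sum_le_sum_of_subset_of_nonneg hS fun _ _ _ => (Real.exp_pos _).le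
  -- factorization
  have h2 : ∀ t, ‖es Box ω t‖ =
      ∏ j, ‖es (Ico (T j) (2 * T j)) (fun a : ℕ => β j * Real.log a) t‖ := by
    intro t
    have e1 : es Box ω t = Complex.exp ((τ * t : ℝ) * I) *
        es Box (fun x => ∑ j, β j * Real.log (x j)) t := by
      unfold es
      rw [mul_sum]
      refine sum_congr rfl fun x _ => ?_
      rw [← Complex.exp_add]
      congr 1
      rw [hω]
      push_cast
      ring
    rw [e1, norm_mul, Complex.norm_exp_ofReal_mul_I, one_mul, hBox,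
      ← es_prod (fun j => Ico (T j) (2 * T j)) (fun j (a : ℕ) => β j * Real.log a) t, norm_prod]
  have h3 : ∑ x ∈ Box, Real.exp (-(v * (ω x) ^ 2 / 2)) ≤
      ∏ _j : κ, ((A : ℝ) ^ k * M) ^ ((1 : ℝ) / (2 * k)) := by
    calc _ ≤ ∫ t, ‖es Box ω t‖ ∂(gw v) := first_moment v Box ω
      _ = ∫ t, ∏ j, ‖es (Ico (T j) (2 * T j)) (fun a : ℕ => β j * Real.log a) t‖ ∂(gw v) := by
          refine integral_congr_ae (Filter.Eventually.of_forall fun t => ?_)
          exact h2 t
      _ ≤ _ := holder v (fun j => Ico (T j) (2 * T j)) (fun j (a : ℕ) => β j * Real.log a) k hk hκ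
      _ ≤ _ := by
          refine prod_le_prod (fun j _ => Real.rpow_nonneg
            (integral_nonneg fun t => by positivity) _) fun j _ => ?_
          refine Real.rpow_le_rpow (integral_nonneg fun t => by positivity) ?_ (by positivity)
          exact moment (T j) A k (hT j) (hTA j) (β j) W M (hβ j) hW v hv hM
  have hk0 : (0 : ℝ) < 2 * k := by positivity
  set m : ℝ := (Fintype.card κ : ℝ) with hm
  have hm2 : m ≤ 2 * k := by rw [hm]; exact_mod_cast hκ
  have h4 : ∏ _j : κ, ((A : ℝ) ^ k * M) ^ ((1 : ℝ) / (2 * k)) ≤ (A : ℝ) ^ (m / 2) * M := by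
    rw [prod_const, card_univ, ← Real.rpow_natCast, ← Real.rpow_mul (by positivity),
      Real.mul_rpow (by positivity) (by positivity), ← Real.rpow_natCast, ← Real.rpow_mul
      (by positivity)]
    have e1 : (k : ℝ) * (1 / (2 * k) * (Fintype.card κ : ℝ)) = m / 2 := by
      rw [hm]
      field_simp
    rw [e1]
    apply mul_le_mul_of_nonneg_left _ (by positivity)
    calc M ^ (1 / (2 * (k : ℝ)) * (Fintype.card κ : ℝ)) ≤ M ^ (1 : ℝ) := by
          apply Real.rpow_le_rpow_of_exponent_le hM1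
          rw [← hm, one_div, inv_mul_le_iff₀ hk0, mul_one]
          exact hm2
      _ = M := Real.rpow_one _
  have h5 : (1 : ℝ) / 2 ≤ Real.exp (-(1 / 2)) := by
    have := Real.add_one_le_exp (-(1 / 2) : ℝ)
    linarith
  have h6 := h1.trans (h3.trans h4)
  have h7 : (S.card : ℝ) * (1 / 2) ≤ S.card * Real.exp (-(1 / 2)) :=
    mul_le_mul_of_nonneg_left h5 (by positivity)
  linarith

/-- the trivial bound -/
theorem box_triv {κ : Type*} [Fintype κ] [DecidableEq κ] (T : κ → ℕ) (hT : ∀ j, 1 ≤ T j)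
    (β : κ → ℝ) (τ : ℝ) (hβ : ∀ j, 1 ≤ |β j|) (j0 : κ)
    (S : Finset (κ → ℕ)) (hS : S ⊆ Fintype.piFinset fun j => Ico (T j) (2 * T j))
    (hsm : ∀ a ∈ S, |∑ j, β j * Real.log (a j) + τ| ≤ 1 / (T j0 : ℝ)) :
    S.card ≤ 4 * ∏ j ∈ univ.erase j0, T j := by
  classical
  set tgt : Finset (ℕ × (κ → ℕ)) := range 4 ×ˢ
    Fintype.piFinset fun j => if j = j0 then {0} else Ico (T j) (2 * T j) with htgt
  have hcard : tgt.card = 4 * ∏ j ∈ univ.erase j0, T j := by
    rw [htgt, card_product, card_range, Fintype.card_piFinset, ← mul_prod_erase univ _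
      (mem_univ j0), if_pos rfl, card_singleton, one_mul]
    congr 1
    refine prod_congr rfl fun j hj => ?_
    rw [if_neg (mem_erase.1 hj).1, Nat.card_Ico]
    omega
  rw [← hcard]
  refine card_le_card_of_injOn (fun a => (a j0 % 4, Function.update a j0 0)) ?_ ?_
  · intro a ha
    have h1 := Fintype.mem_piFinset.1 (hS ha)
    rw [htgt, mem_coe, mem_product, mem_range, Fintype.mem_piFinset]
    refine ⟨Nat.mod_lt _ (by norm_num), fun j => ?_⟩
    by_cases hj : j = j0
    · subst hj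
      simp
    · simp only [Function.update_of_ne hj, if_neg hj]
      exact h1 j
  · intro a ha a' ha' haa
    simp only [Prod.mk.injEq] at haa
    obtain ⟨hmod, hupd⟩ := haa
    have hrest : ∀ j, j ≠ j0 → a j = a' j := by
      intro j hj
      have := congrFun hupd j
      rwa [Function.update_of_ne hj, Function.update_of_ne hj] at this
    have h1 := mem_Ico.1 (Fintype.mem_piFinset.1 (hS ha) j0)
    have h1' := mem_Ico.1 (Fintype.mem_piFinset.1 (hS ha') j0)
    have hT0 : (0 : ℝ) < T j0 := by exact_mod_cast hT j0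
    have h2 := hsm a ha
    have h2' := hsm a' ha'
    have e1 : (∑ j, β j * Real.log (a j) + τ) - (∑ j, β j * Real.log (a' j) + τ) =
        β j0 * (Real.log (a j0) - Real.log (a' j0)) := by
      rw [← add_sum_erase univ _ (mem_univ j0), ← add_sum_erase univ (fun j => β j *
        Real.log (a' j)) (mem_univ j0)]
      have : ∑ j ∈ univ.erase j0, β j * Real.log (a j) =
          ∑ j ∈ univ.erase j0, β j * Real.log (a' j) := by
        refine sum_congr rfl fun j hj => ?_
        rw [hrest j (mem_erase.1 hj).1]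
      rw [this]
      ring
    have h3 : |Real.log (a j0) - Real.log (a' j0)| ≤ 2 / (T j0 : ℝ) := by
      have h4 : |β j0 * (Real.log (a j0) - Real.log (a' j0))| ≤ 1 / (T j0 : ℝ) + 1 / T j0 := by
        rw [← e1]
        exact (abs_sub _ _).trans (add_le_add h2 h2')
      rw [abs_mul] at h4
      have h5 : |Real.log (a j0) - Real.log (a' j0)| ≤
          |β j0| * |Real.log (a j0) - Real.log (a' j0)| :=
        le_mul_of_one_le_left (abs_nonneg _) (hβ j0)
      have h6 : (1 : ℝ) / (T j0 : ℝ) + 1 / T j0 = 2 / T j0 := by ring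
      linarith
    have key : ∀ x y : ℕ, T j0 ≤ x → x < 2 * T j0 → T j0 ≤ y → y < 2 * T j0 → y < x →
        |Real.log x - Real.log y| ≤ 2 / (T j0 : ℝ) → x - y < 4 := by
      intro x y hx1 hx2 hy1 hy2 hyx hl
      by_contra hcon
      have hxy : y + 4 ≤ x := by omega
      have hx0 : (0 : ℝ) < x := lt_of_lt_of_le hT0 (by exact_mod_cast hx1)
      have hy0 : (0 : ℝ) < y := lt_of_lt_of_le hT0 (by exact_mod_cast hy1)
      have h6 := Real.one_sub_inv_le_log_of_pos (div_pos hx0 hy0)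
      rw [inv_div, Real.log_div hx0.ne' hy0.ne'] at h6
      have h7 : 1 - (y : ℝ) / x ≤ 2 / T j0 := h6.trans ((le_abs_self _).trans hl)
      have h8 : (1 : ℝ) - y / x = (x - y) / x := by field_simp
      rw [h8, div_le_div_iff₀ hx0 hT0] at h7
      have h9 : (y : ℝ) + 4 ≤ x := by exact_mod_cast hxy
      have h10 : (x : ℝ) < 2 * T j0 := by exact_mod_cast hx2
      nlinarith
    have hj0 : a j0 = a' j0 := by
      rcases lt_trichotomy (a j0) (a' j0) with h | h | h
      · have := key (a' j0) (a j0) h1'.1 h1'.2 h1.1 h1.2 h (by rw [abs_sub_comm]; exact h3)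
        omega
      · exact h
      · have := key (a j0) (a' j0) h1.1 h1.2 h1'.1 h1'.2 h h3
        omega
    funext j
    by_cases hj : j = j0
    · rw [hj]; exact hj0
    · exact hrest j hj

end Pool.Agent.TH201.LW
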