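import Mathlib
import Pool.Agent.TH201.LW.Box

/-!
# Boxes of arbitrary shape
-/

set_option autoImplicit false

namespace Pool.Agent.TH201.LW

open Finset MeasureTheory ProbabilityTheory Complex

/-- Hölder's inequality for products of exponential sums, exponents `2 k_j` -/
theorem holder2 {κ ι : Type*} [Fintype κ] (v : NNReal) (s : κ → Finset ι) (ω : κ → ι → ℝ)
    (k : κ → ℕ) (hk : ∀ j, 1 ≤ k j) (hκ : ∑ j, (1 : ℝ) / (2 * k j) ≤ 1) :
    ∫ t, ∏ j, ‖es (s j) (ω j) t‖ ∂(gw v) ≤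
      ∏ j, (∫ t, ‖es (s j) (ω j) t‖ ^ (2 * k j) ∂(gw v)) ^ ((1 : ℝ) / (2 * k j)) := by
  have hkpos : ∀ j, (0 : ℝ) < 2 * k j := fun j => by
    have : (0 : ℝ) < k j := by exact_mod_cast hk j
    positivity
  have hcont : ∀ j, Continuous fun t => ‖es (s j) (ω j) t‖ := fun j => (es_cont _ _).norm
  have hmom : ∀ j, ∫⁻ t, ENNReal.ofReal (‖es (s j) (ω j) t‖ ^ (2 * k j)) ∂(gw v) =
      ENNReal.ofReal (∫ t, ‖es (s j) (ω j) t‖ ^ (2 * k j) ∂(gw v)) := by
    intro j
    rw [ofReal_integral_eq_lintegral_ofReal]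
    · refine Integrable.of_bound ((hcont j).pow _).aestronglyMeasurable
        (((s j).card : ℝ) ^ (2 * k j)) (Filter.Eventually.of_forall fun t => ?_)
      rw [Real.norm_of_nonneg (by positivity)]
      exact pow_le_pow_left₀ (norm_nonneg _) (es_norm_le _ _ _) _
    · exact Filter.Eventually.of_forall fun t => by positivity
  have hint : ∫⁻ t, ENNReal.ofReal (∏ j, ‖es (s j) (ω j) t‖) ∂(gw v) =
      ENNReal.ofReal (∫ t, ∏ j, ‖es (s j) (ω j) t‖ ∂(gw v)) := by
    rw [ofReal_integral_eq_lintegral_ofReal]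
    · refine Integrable.of_bound
        (continuous_finsetProd _ fun j _ => hcont j).aestronglyMeasurable
        (∏ j, ((s j).card : ℝ)) (Filter.Eventually.of_forall fun t => ?_)
      rw [Real.norm_of_nonneg (prod_nonneg fun j _ => norm_nonneg _)]
      exact prod_le_prod (fun j _ => norm_nonneg _) fun j _ => es_norm_le _ _ _
    · exact Filter.Eventually.of_forall fun t => prod_nonneg fun j _ => norm_nonneg _
  have hpt : ∀ t, ENNReal.ofReal (∏ j, ‖es (s j) (ω j) t‖) =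
      (1 : ENNReal) ^ (1 - ∑ j, (1 : ℝ) / (2 * k j)) *
        ∏ j ∈ univ, (ENNReal.ofReal (‖es (s j) (ω j) t‖ ^ (2 * k j))) ^
          ((1 : ℝ) / (2 * k j)) := by
    intro t
    rw [ENNReal.one_rpow, one_mul, ENNReal.ofReal_prod_of_nonneg fun j _ => norm_nonneg _]
    refine prod_congr rfl fun j _ => ?_
    rw [ENNReal.ofReal_rpow_of_nonneg (by positivity) (by positivity), ← Real.rpow_natCast,
      ← Real.rpow_mul (norm_nonneg _)]
    congr 1
    have : ((2 * k j : ℕ) : ℝ) * (1 / (2 * k j)) = 1 := by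
      push_cast
      rw [mul_one_div, div_self (hkpos j).ne']
    rw [this, Real.rpow_one]
  have key := ENNReal.lintegral_mul_prod_norm_pow_le (μ := gw v) univ
    (g := fun _ => (1 : ENNReal))
    (f := fun j t => ENNReal.ofReal (‖es (s j) (ω j) t‖ ^ (2 * k j))) aemeasurable_const
    (fun j _ => (((hcont j).pow _).measurable.ennreal_ofReal).aemeasurable)
    (1 - ∑ j, (1 : ℝ) / (2 * k j)) (p := fun j => (1 : ℝ) / (2 * k j))
    (by ring)
    (by linarith)
    (fun j _ => by positivity)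
  have hone : ∫⁻ _ : ℝ, (1 : ENNReal) ∂(gw v) = 1 := by
    rw [lintegral_one]
    exact measure_univ
  rw [hone] at key
  simp only [ENNReal.one_rpow, one_mul] at key hpt
  have key : ENNReal.ofReal (∫ t, ∏ j, ‖es (s j) (ω j) t‖ ∂(gw v)) ≤
      ∏ j ∈ univ, (ENNReal.ofReal (∫ t, ‖es (s j) (ω j) t‖ ^ (2 * k j) ∂(gw v))) ^
        ((1 : ℝ) / (2 * k j)) := by
    calc ENNReal.ofReal (∫ t, ∏ j, ‖es (s j) (ω j) t‖ ∂(gw v)) = _ := hint.symm
      _ = _ := lintegral_congr hpt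
      _ ≤ ∏ j ∈ univ, (∫⁻ t, ENNReal.ofReal (‖es (s j) (ω j) t‖ ^ (2 * k j)) ∂(gw v)) ^
          ((1 : ℝ) / (2 * k j)) := key
      _ = _ := prod_congr rfl fun j _ => by rw [hmom j]
  have hnn : ∀ j, 0 ≤ ∫ t, ‖es (s j) (ω j) t‖ ^ (2 * k j) ∂(gw v) := fun j =>
    integral_nonneg fun t => by positivity
  have hr : ∏ j ∈ univ, (ENNReal.ofReal (∫ t, ‖es (s j) (ω j) t‖ ^ (2 * k j) ∂(gw v))) ^
      ((1 : ℝ) / (2 * k j)) =
      ENNReal.ofReal (∏ j, (∫ t, ‖es (s j) (ω j) t‖ ^ (2 * k j) ∂(gw v)) ^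
        ((1 : ℝ) / (2 * k j))) := by
    rw [ENNReal.ofReal_prod_of_nonneg fun j _ => Real.rpow_nonneg (hnn j) _]
    refine prod_congr rfl fun j _ => ?_
    rw [ENNReal.ofReal_rpow_of_nonneg (hnn j) (by positivity)]
  rw [hr] at key
  exact (ENNReal.ofReal_le_ofReal_iff (prod_nonneg fun j _ => Real.rpow_nonneg (hnn j) _)).1 key

/-- the number of points in a dyadic box by mean values -/
theorem box_mean2 {κ : Type*} [Fintype κ] [DecidableEq κ] (T : κ → ℕ)
    (k : κ → ℕ) (hk : ∀ j, 1 ≤ k j) (hκ : ∑ j, (1 : ℝ) / (2 * k j) ≤ 1) (hT : ∀ j, 1 ≤ T j)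
    (β : κ → ℝ) (τ W M : ℝ) (hβ : ∀ j, 1 ≤ |β j|) (hW : 0 ≤ W) (hM1 : 1 ≤ M)
    (v : NNReal) (hv : ∀ j, (W * (2 * T j : ℝ) ^ k j) ^ 2 ≤ v)
    (hM : ∀ j, ∀ N : ℕ, 1 ≤ N → N ≤ (2 * T j) ^ k j →
      ((N.divisors.card : ℝ)) ^ k j + (T j : ℝ) ^ k j * Real.exp (-(W ^ 2 / 2)) ≤ M)
    (S : Finset (κ → ℕ)) (hS : S ⊆ Fintype.piFinset fun j => Ico (T j) (2 * T j))
    (hsm : ∀ a ∈ S, v * (∑ j, β j * Real.log (a j) + τ) ^ 2 ≤ 1) :
    (S.card : ℝ) ≤ 2 * ((∏ j, (T j : ℝ)) ^ ((1 : ℝ) / 2) * M) := by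
  classical
  set Box : Finset (κ → ℕ) := Fintype.piFinset fun j => Ico (T j) (2 * T j) with hBox
  set ω : (κ → ℕ) → ℝ := fun x => ∑ j, β j * Real.log (x j) + τ with hω
  have hT1 : ∀ j, (1 : ℝ) ≤ T j := fun j => by exact_mod_cast hT j
  have hkpos : ∀ j, (0 : ℝ) < 2 * k j := fun j => by
    have : (0 : ℝ) < k j := by exact_mod_cast hk j
    positivity
  -- lower bound
  have h1 : (S.card : ℝ) * Real.exp (-(1 / 2)) ≤
      ∑ x ∈ Box, Real.exp (-(v * (ω x) ^ 2 / 2)) := by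
    calc (S.card : ℝ) * Real.exp (-(1 / 2)) = ∑ _x ∈ S, Real.exp (-(1 / 2)) := by
          rw [sum_const, nsmul_eq_mul]
      _ ≤ ∑ x ∈ S, Real.exp (-(v * (ω x) ^ 2 / 2)) := by
          refine sum_le_sum fun x hx => ?_
          rw [Real.exp_le_exp, neg_le_neg_iff]
          have := hsm x hx
          linarith
      _ ≤ _ := sum_le_sum_of_subset_of_nonneg hS fun _ _ _ => (Real.exp_pos _).le
  -- factorization
  have h2 : ∀ t, ‖es Box ω t‖ =
      ∏ j, ‖es (Ico (T j) (2 * T j)) (fun a : ℕ => β j * Real.log a) t‖ := by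
    intro t
    have e1 : es Box ω t = Complex.exp ((τ * t : ℝ) * I) *
        es Box (fun x => ∑ j, β j * Real.log (x j)) t := by
      unfold es
      rw [mul_sum]
      refine sum_congr rfl fun x _ => ?_
      rw [← Complex.exp_add]
      congr 1
      rw [hω]
      push_cast
      ring
    rw [e1, norm_mul, Complex.norm_exp_ofReal_mul_I, one_mul, hBox,
      ← es_prod (fun j => Ico (T j) (2 * T j)) (fun j (a : ℕ) => β j * Real.log a) t, norm_prod]
  have h3 : ∑ x ∈ Box, Real.exp (-(v * (ω x) ^ 2 / 2)) ≤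
      ∏ j : κ, ((T j : ℝ) ^ k j * M) ^ ((1 : ℝ) / (2 * k j)) := by
    calc _ ≤ ∫ t, ‖es Box ω t‖ ∂(gw v) := first_moment v Box ω
      _ = ∫ t, ∏ j, ‖es (Ico (T j) (2 * T j)) (fun a : ℕ => β j * Real.log a) t‖ ∂(gw v) := by
          refine integral_congr_ae (Filter.Eventually.of_forall fun t => ?_)
          exact h2 t
      _ ≤ _ := holder2 v (fun j => Ico (T j) (2 * T j)) (fun j (a : ℕ) => β j * Real.log a) k
          hk hκ
      _ ≤ _ := by
          refine prod_le_prod (fun j _ => Real.rpow_nonneg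
            (integral_nonneg fun t => by positivity) _) fun j _ => ?_
          refine Real.rpow_le_rpow (integral_nonneg fun t => by positivity) ?_ (by positivity)
          exact moment (T j) (T j) (k j) (hT j) le_rfl (β j) W M (hβ j) hW v (hv j) (hM j)
  have h4 : ∏ j : κ, ((T j : ℝ) ^ k j * M) ^ ((1 : ℝ) / (2 * k j)) ≤
      (∏ j, (T j : ℝ)) ^ ((1 : ℝ) / 2) * M := by
    have e1 : ∀ j, ((T j : ℝ) ^ k j * M) ^ ((1 : ℝ) / (2 * k j)) =
        (T j : ℝ) ^ ((1 : ℝ) / 2) * M ^ ((1 : ℝ) / (2 * k j)) := by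
      intro j
      rw [Real.mul_rpow (by positivity) (by positivity), ← Real.rpow_natCast, ← Real.rpow_mul
        (by positivity)]
      congr 2
      have : (k j : ℝ) ≠ 0 := by
        have := hkpos j
        intro h
        rw [h] at this
        simp at this
      field_simp
    simp_rw [e1]
    rw [prod_mul_distrib, Real.finsetProd_rpow _ _ (fun j _ => by positivity)]
    apply mul_le_mul_of_nonneg_left _ (by
      apply Real.rpow_nonneg
      exact prod_nonneg fun j _ => by positivity)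
    rw [← Real.rpow_sum_of_pos (by linarith)]
    calc M ^ (∑ j, (1 : ℝ) / (2 * k j)) ≤ M ^ (1 : ℝ) :=
          Real.rpow_le_rpow_of_exponent_le hM1 hκ
      _ = M := Real.rpow_one _
  have h5 : (1 : ℝ) / 2 ≤ Real.exp (-(1 / 2)) := by
    have := Real.add_one_le_exp (-(1 / 2) : ℝ)
    linarith
  have h6 := h1.trans (h3.trans h4)
  have h7 : (S.card : ℝ) * (1 / 2) ≤ S.card * Real.exp (-(1 / 2)) :=
    mul_le_mul_of_nonneg_left h5 (by positivity)
  linarith

end Pool.Agent.TH201.LW
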