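import Mathlib
import Pool.Agent.TH201.LW.Box2
import Pool.Agent.Helper112.Arith

/-!
# Square-root bound for the integer points at which a linear form in logarithms is small
-/

set_option autoImplicit false

namespace Pool.Agent.TH201.LW

open Finset

/-- the constants of the moment bound -/
theorem exists_M (k : ℕ) (hk : 1 ≤ k) (ε : ℝ) (hε : 0 < ε) : ∃ C : ℝ, 1 ≤ C ∧ ∀ A : ℕ, 1 ≤ A →
    ∀ N : ℕ, 1 ≤ N → N ≤ (2 * A) ^ k →
      ((N.divisors.card : ℝ)) ^ k + (A : ℝ) ^ k * Real.exp (-(((A : ℝ) ^ ε) ^ 2 / 2)) ≤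
        C * (A : ℝ) ^ ε := by
  have hk0 : (0 : ℝ) < k := by exact_mod_cast hk
  obtain ⟨C1, hC1, hd⟩ := Pool.Agent.Helper112.divisor_bound (ε / (k : ℝ) ^ 2) (by positivity)
  obtain ⟨r, hr⟩ := exists_nat_ge ((k : ℝ) / (2 * ε))
  set C2 : ℝ := (r.factorial : ℝ) * 2 ^ r with hC2
  refine ⟨C1 ^ k * 2 ^ ε + C2 + 1, ?_, fun A hA N hN hNA => ?_⟩
  · have : 0 ≤ C1 ^ k * 2 ^ ε + C2 := by positivity
    linarith
  have hA1 : (1 : ℝ) ≤ A := by exact_mod_cast hA
  have hA0 : (0 : ℝ) < A := by linarith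
  have hAe : (1 : ℝ) ≤ (A : ℝ) ^ ε := Real.one_le_rpow hA1 hε.le
  have h1 : ((N.divisors.card : ℝ)) ^ k ≤ C1 ^ k * 2 ^ ε * (A : ℝ) ^ ε := by
    have h2 := hd N hN
    have h3 : ((N : ℝ)) ^ (ε / (k : ℝ) ^ 2) ≤ (((2 * A : ℝ)) ^ k) ^ (ε / (k : ℝ) ^ 2) := by
      apply Real.rpow_le_rpow (by positivity) _ (by positivity)
      exact_mod_cast hNA
    calc ((N.divisors.card : ℝ)) ^ k ≤ (C1 * (((2 * A : ℝ)) ^ k) ^ (ε / (k : ℝ) ^ 2)) ^ k := by
          apply pow_le_pow_left₀ (by positivity)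
          exact h2.trans (mul_le_mul_of_nonneg_left h3 hC1.le)
      _ = C1 ^ k * (2 * A : ℝ) ^ ε := by
          rw [mul_pow]
          congr 1
          rw [← Real.rpow_natCast ((2 * A : ℝ)) k, ← Real.rpow_mul (by positivity),
            ← Real.rpow_natCast, ← Real.rpow_mul (by positivity)]
          congr 1
          field_simp
      _ = C1 ^ k * 2 ^ ε * (A : ℝ) ^ ε := by
          rw [Real.mul_rpow (by norm_num) hA0.le]
          ring
  have h2 : (A : ℝ) ^ k * Real.exp (-(((A : ℝ) ^ ε) ^ 2 / 2)) ≤ C2 := by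
    have h3 := Real.pow_div_factorial_le_exp (((A : ℝ) ^ ε) ^ 2 / 2) (by positivity) r
    have h4 : (A : ℝ) ^ k ≤ (((A : ℝ) ^ ε) ^ 2) ^ r := by
      rw [← Real.rpow_natCast (((A : ℝ) ^ ε) ^ 2), ← Real.rpow_natCast ((A : ℝ) ^ ε),
        ← Real.rpow_mul hA0.le, ← Real.rpow_mul hA0.le, ← Real.rpow_natCast]
      apply Real.rpow_le_rpow_of_exponent_le hA1
      rw [div_le_iff₀ (by positivity)] at hr
      push_cast
      linarith
    rw [Real.exp_neg, ← div_eq_mul_inv, div_le_iff₀ (Real.exp_pos _)]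
    have hf : (0 : ℝ) < r.factorial := by exact_mod_cast r.factorial_pos
    calc (A : ℝ) ^ k ≤ (((A : ℝ) ^ ε) ^ 2) ^ r := h4
      _ = C2 * ((((A : ℝ) ^ ε) ^ 2 / 2) ^ r / r.factorial) := by
          rw [hC2, div_pow]
          field_simp
      _ ≤ C2 * Real.exp (((A : ℝ) ^ ε) ^ 2 / 2) := by
          apply mul_le_mul_of_nonneg_left h3
          rw [hC2]
          positivity
  have h3 : C2 ≤ C2 * (A : ℝ) ^ ε := le_mul_of_one_le_right (by rw [hC2]; positivity) hAe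
  have h4 : (0 : ℝ) ≤ (A : ℝ) ^ ε := by positivity
  nlinarith

/-- the choice of the exponents in Hölder's inequality -/
theorem choose_k (m K : ℕ) (hm : 1 ≤ m) (η X P T : ℝ) (hη : 0 < η) (hη2 : η ≤ 1 / 2)
    (hK : (m : ℝ) / (2 * η) ≤ K) (hT : 1 ≤ T) (hP : 1 < P) (hPX : P ≤ X)
    (hcase : T * 2 ^ K * X ^ (2 * η) < P ^ ((1 : ℝ) / 2)) :
    ∃ k : ℕ, 1 ≤ k ∧ k ≤ K ∧
      (1 : ℝ) / (2 * k) ≤ (1 - η) * (Real.log T / Real.log P) + η / m ∧
      X ^ η * (2 * T) ^ k ≤ P := by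
  have hm0 : (0 : ℝ) < m := by exact_mod_cast hm
  have hlP : 0 < Real.log P := Real.log_pos hP
  have hlT : 0 ≤ Real.log T := Real.log_nonneg hT
  have hX0 : 0 < X := by linarith
  have hT0 : 0 < T := by linarith
  have hP0 : 0 < P := by linarith
  set L : ℝ := Real.log T / Real.log P with hL
  have hL0 : 0 ≤ L := by positivity
  set u : ℝ := (1 - η) * L + η / m with hu
  have hu1 : η / m ≤ u := by
    have : 0 ≤ (1 - η) * L := mul_nonneg (by linarith) hL0
    linarith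
  have hum : 0 < η / m := by positivity
  have hu0 : 0 < u := by linarith
  have hu2 : (1 - η) * L ≤ u := by linarith
  refine ⟨⌈1 / (2 * u)⌉₊, ?_, ?_, ?_, ?_⟩
  · exact Nat.one_le_iff_ne_zero.2 (Nat.ceil_pos.2 (by positivity)).ne'
  · apply Nat.ceil_le.2
    refine le_trans ?_ hK
    rw [div_le_div_iff₀ (by positivity) (by positivity)]
    rw [div_le_iff₀ hm0] at hu1
    nlinarith
  · have h1 : 1 / (2 * u) ≤ (⌈1 / (2 * u)⌉₊ : ℝ) := Nat.le_ceil _
    have h2 : (0 : ℝ) < (⌈1 / (2 * u)⌉₊ : ℝ) := lt_of_lt_of_le (by positivity) h1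
    rw [div_le_iff₀ (by positivity)] at h1
    rw [div_le_iff₀ (by positivity)]
    linarith
  · set k : ℕ := ⌈1 / (2 * u)⌉₊ with hk
    have hkK : k ≤ K := by
      apply Nat.ceil_le.2
      refine le_trans ?_ hK
      rw [div_le_div_iff₀ (by positivity) (by positivity)]
      rw [div_le_iff₀ hm0] at hu1
      nlinarith
    have hk1 : (k : ℝ) < 1 / (2 * u) + 1 := Nat.ceil_lt_add_one (by positivity)
    have hl2 : 0 < Real.log 2 := Real.log_pos (by norm_num)
    have h1 : Real.log (T * 2 ^ K * X ^ (2 * η)) < Real.log (P ^ ((1 : ℝ) / 2)) :=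
      Real.log_lt_log (by positivity) hcase
    rw [Real.log_mul (by positivity) (by positivity), Real.log_mul (by positivity) (by positivity),
      Real.log_pow, Real.log_rpow hX0, Real.log_rpow hP0] at h1
    have h2 : Real.log P ≤ Real.log X := Real.log_le_log hP0 hPX
    have h3 : (k : ℝ) * Real.log T ≤ (1 / 2 + η) * Real.log P + Real.log T := by
      have e1 : Real.log T = L * Real.log P := by
        rw [hL]
        field_simp
      have e2 : (k : ℝ) * Real.log T ≤ (1 / (2 * u) + 1) * Real.log T :=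
        mul_le_mul_of_nonneg_right hk1.le hlT
      have e3 : 1 / (2 * u) * Real.log T ≤ (1 / 2 + η) * Real.log P := by
        rw [e1, ← mul_assoc]
        apply mul_le_mul_of_nonneg_right _ hlP.le
        rw [one_div, inv_mul_le_iff₀ (by positivity)]
        have e4 : L ≤ 2 * (1 / 2 + η) * ((1 - η) * L) := by
          have : 0 ≤ η * (1 - 2 * η) * L := by
            apply mul_nonneg (mul_nonneg hη.le (by linarith)) hL0
          nlinarith
        have e5 : 2 * (1 / 2 + η) * ((1 - η) * L) ≤ 2 * (1 / 2 + η) * u :=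
          mul_le_mul_of_nonneg_left hu2 (by positivity)
        linarith
      linarith
    have h4 : Real.log (X ^ η * (2 * T) ^ k) ≤ Real.log P := by
      rw [Real.log_mul (by positivity) (by positivity), Real.log_rpow hX0, Real.log_pow,
        Real.log_mul (by norm_num) hT0.ne']
      have e1 : (k : ℝ) * Real.log 2 ≤ K * Real.log 2 :=
        mul_le_mul_of_nonneg_right (by exact_mod_cast hkK) hl2.le
      nlinarith
    exact (Real.log_le_log_iff (by positivity) hP0).1 h4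

/-- one dyadic box -/
theorem box_bound2 {κ : Type*} [Fintype κ] [DecidableEq κ] [Nonempty κ] (ε : ℝ) (hε : 0 < ε) :
    ∃ C : ℝ, 0 < C ∧ ∀ (X : ℕ) (T : κ → ℕ), (∀ j, 1 ≤ T j) → ∏ j, T j ≤ X →
      ∀ (β : κ → ℝ) (τ : ℝ), (∀ j, 1 ≤ |β j|) →
      ∀ S : Finset (κ → ℕ), S ⊆ (Fintype.piFinset fun j => Ico (T j) (2 * T j)) →
      (∀ a ∈ S, |∑ j, β j * Real.log (a j) + τ| ≤ 1 / ∏ j, (T j : ℝ)) →
      (S.card : ℝ) ≤ C * (X : ℝ) ^ ((1 : ℝ) / 2 + ε) := by
  classical
  set m : ℕ := Fintype.card κ with hm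
  have hm1 : 1 ≤ m := Fintype.card_pos
  have hm0 : (0 : ℝ) < m := by exact_mod_cast hm1
  set η : ℝ := min (ε / 2) (1 / 2) with hη
  have hη0 : 0 < η := by positivity
  have hη1 : η ≤ ε / 2 := min_le_left _ _
  have hη2 : η ≤ 1 / 2 := min_le_right _ _
  obtain ⟨K, hK⟩ := exists_nat_ge ((m : ℝ) / (2 * η))
  have hK1 : 1 ≤ K := by
    have : (0 : ℝ) < K := lt_of_lt_of_le (by positivity) hK
    exact_mod_cast this
  obtain ⟨C, hC1, hC⟩ := exists_M K hK1 η hη0
  refine ⟨2 * C + 4 * 2 ^ K, by positivity, fun X T hT hTX β τ hβ S hS hsm => ?_⟩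
  have hPN : 1 ≤ ∏ j, T j := Nat.one_le_iff_ne_zero.2 (prod_ne_zero_iff.2 fun j _ => by
    have := hT j
    omega)
  have hX : 1 ≤ X := hPN.trans hTX
  have hX1 : (1 : ℝ) ≤ X := by exact_mod_cast hX
  have hX0 : (0 : ℝ) < X := by linarith
  set W : ℝ := (X : ℝ) ^ η with hW
  have hW1 : 1 ≤ W := Real.one_le_rpow hX1 hη0.le
  set P : ℝ := ∏ j, (T j : ℝ) with hP
  have hP1 : 1 ≤ P := by rw [hP]; exact_mod_cast hPN
  have hP0 : 0 < P := by linarith
  have hPX : P ≤ X := by rw [hP]; exact_mod_cast hTX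
  have hT1 : ∀ j, (1 : ℝ) ≤ T j := fun j => by exact_mod_cast hT j
  have hPh : P ^ ((1 : ℝ) / 2) ≤ (X : ℝ) ^ ((1 : ℝ) / 2) :=
    Real.rpow_le_rpow hP0.le hPX (by norm_num)
  have hPh1 : 1 ≤ P ^ ((1 : ℝ) / 2) := Real.one_le_rpow hP1 (by norm_num)
  have hWX : (X : ℝ) ^ (2 * η) ≤ (X : ℝ) ^ ε :=
    Real.rpow_le_rpow_of_exponent_le hX1 (by linarith)
  have hWX1 : (X : ℝ) ^ η ≤ (X : ℝ) ^ ε :=
    Real.rpow_le_rpow_of_exponent_le hX1 (by linarith)
  have hsplit : (X : ℝ) ^ ((1 : ℝ) / 2 + ε) = (X : ℝ) ^ ((1 : ℝ) / 2) * (X : ℝ) ^ ε :=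
    Real.rpow_add hX0 _ _
  have hXX0 : 0 ≤ (X : ℝ) ^ ((1 : ℝ) / 2) * (X : ℝ) ^ ε := by positivity
  by_cases hcase : ∀ j, (T j : ℝ) * 2 ^ K * (X : ℝ) ^ (2 * η) < P ^ ((1 : ℝ) / 2)
  · have hP2 : 1 < P := by
      obtain ⟨j⟩ := ‹Nonempty κ›
      by_contra hcon
      push Not at hcon
      have h1 := hcase j
      have h2 : P ^ ((1 : ℝ) / 2) ≤ 1 := Real.rpow_le_one hP0.le hcon (by norm_num)
      have h3 : (1 : ℝ) ≤ 2 ^ K := one_le_pow₀ (by norm_num)
      have h4 : (1 : ℝ) ≤ (X : ℝ) ^ (2 * η) := Real.one_le_rpow hX1 (by positivity)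
      have h5 : (1 : ℝ) ≤ (T j : ℝ) * 2 ^ K := by nlinarith [hT1 j]
      nlinarith
    have hlP : 0 < Real.log P := Real.log_pos hP2
    have hex := fun j => choose_k m K hm1 η X P (T j) hη0 hη2 hK (hT1 j) hP2 hPX (hcase j)
    choose k hk1 hkK hk2 hk3 using hex
    have hsum : ∑ j, (1 : ℝ) / (2 * k j) ≤ 1 := by
      refine (sum_le_sum fun j _ => hk2 j).trans ?_
      rw [sum_add_distrib, ← mul_sum, ← sum_div, sum_const, card_univ, nsmul_eq_mul, ← hm,
        ← Real.log_prod fun j _ => (by linarith [hT1 j] : (T j : ℝ) ≠ 0), ← hP,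
        div_self hlP.ne']
      have : (m : ℝ) * (η / m) = η := by field_simp
      rw [this]
      linarith
    have hv0 : 0 ≤ P ^ 2 := by positivity
    have hcard := box_mean2 T k hk1 hsum hT β τ W (C * W) hβ (by positivity)
      (by nlinarith) ⟨P ^ 2, hv0⟩
      (fun j => by
        show (W * (2 * T j : ℝ) ^ k j) ^ 2 ≤ P ^ 2
        exact pow_le_pow_left₀ (by positivity) (hk3 j) 2)
      (fun j N hN hNA => by
        have hTjX : T j ≤ X := by
          refine le_trans ?_ hTX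
          exact Nat.le_of_dvd (by omega) (dvd_prod_of_mem _ (mem_univ j))
        have h1 : N ≤ (2 * X) ^ K := by
          refine hNA.trans ?_
          calc (2 * T j) ^ k j ≤ (2 * X) ^ k j := Nat.pow_le_pow_left (by omega) _
            _ ≤ (2 * X) ^ K := Nat.pow_le_pow_right (by omega) (hkK j)
        have h2 := hC X hX N hN h1
        refine le_trans ?_ h2
        have h3 : (1 : ℝ) ≤ (N.divisors.card : ℝ) := by
          have : 0 < N.divisors.card :=
            Finset.card_pos.2 ⟨1, Nat.one_mem_divisors.2 (by omega)⟩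
          exact_mod_cast this
        have h4 : ((N.divisors.card : ℝ)) ^ k j ≤ ((N.divisors.card : ℝ)) ^ K :=
          pow_le_pow_right₀ h3 (hkK j)
        have h5 : (T j : ℝ) ^ k j ≤ (X : ℝ) ^ K := by
          calc (T j : ℝ) ^ k j ≤ (X : ℝ) ^ k j :=
                pow_le_pow_left₀ (by positivity) (by exact_mod_cast hTjX) _
            _ ≤ (X : ℝ) ^ K := pow_le_pow_right₀ hX1 (hkK j)
        have h6 : (T j : ℝ) ^ k j * Real.exp (-(W ^ 2 / 2)) ≤
            (X : ℝ) ^ K * Real.exp (-(W ^ 2 / 2)) :=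
          mul_le_mul_of_nonneg_right h5 (Real.exp_pos _).le
        linarith) S hS (fun a ha => by
        show P ^ 2 * (∑ j, β j * Real.log (a j) + τ) ^ 2 ≤ 1
        have h1 := hsm a ha
        rw [← sq_abs (∑ j, β j * Real.log (a j) + τ), ← mul_pow]
        have h2 : P * |∑ j, β j * Real.log (a j) + τ| ≤ 1 := by
          rw [le_div_iff₀ hP0] at h1
          linarith
        exact pow_le_one₀ (by positivity) h2)
    rw [hsplit]
    refine hcard.trans ?_
    have h3 : P ^ ((1 : ℝ) / 2) * (C * W) ≤ C * ((X : ℝ) ^ ((1 : ℝ) / 2) * (X : ℝ) ^ ε) := by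
      calc P ^ ((1 : ℝ) / 2) * (C * W) = C * (P ^ ((1 : ℝ) / 2) * W) := by ring
        _ ≤ _ := by
            apply mul_le_mul_of_nonneg_left _ (by linarith)
            exact mul_le_mul hPh hWX1 (by positivity) (by positivity)
    have h4 : (0 : ℝ) ≤ 4 * 2 ^ K := by positivity
    nlinarith
  · push Not at hcase
    obtain ⟨j0, hj0⟩ := hcase
    set R : ℕ := ∏ j ∈ univ.erase j0, T j with hR
    have hPR : P = R * T j0 := by
      rw [hP, hR, ← mul_prod_erase univ _ (mem_univ j0)]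
      push_cast
      ring
    have hR0 : (0 : ℝ) < R := by
      rw [hR]
      push_cast
      exact prod_pos fun j _ => by exact_mod_cast hT j
    have hT0 : (0 : ℝ) < T j0 := by exact_mod_cast hT j0
    have hcard := box_triv T hT β τ hβ j0 S hS (fun a ha => by
      refine (hsm a ha).trans ?_
      apply one_div_le_one_div_of_le hT0
      rw [hPR]
      have : (1 : ℝ) ≤ R := by
        have : 0 < R := by exact_mod_cast hR0
        exact_mod_cast this
      nlinarith)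
    have hcard' : (S.card : ℝ) ≤ 4 * R := by
      rw [hR]
      exact_mod_cast hcard
    have hRle : (R : ℝ) ≤ 2 ^ K * (X : ℝ) ^ (2 * η) * P ^ ((1 : ℝ) / 2) := by
      have h1 : P ^ ((1 : ℝ) / 2) * P ^ ((1 : ℝ) / 2) = P := by
        rw [← Real.rpow_add hP0]
        norm_num
      have h2 : (R : ℝ) * T j0 ≤ (2 ^ K * (X : ℝ) ^ (2 * η) * P ^ ((1 : ℝ) / 2)) * T j0 := by
        rw [← hPR]
        calc P = P ^ ((1 : ℝ) / 2) * P ^ ((1 : ℝ) / 2) := h1.symm
          _ ≤ ((T j0 : ℝ) * 2 ^ K * (X : ℝ) ^ (2 * η)) * P ^ ((1 : ℝ) / 2) :=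
              mul_le_mul_of_nonneg_right hj0 (by positivity)
          _ = _ := by ring
      exact le_of_mul_le_mul_right h2 hT0
    rw [hsplit]
    have h5 : (X : ℝ) ^ (2 * η) * P ^ ((1 : ℝ) / 2) ≤
        (X : ℝ) ^ ((1 : ℝ) / 2) * (X : ℝ) ^ ε := by
      rw [mul_comm]
      exact mul_le_mul hPh hWX (by positivity) (by positivity)
    have h6 : (0 : ℝ) ≤ 4 * 2 ^ K := by positivity
    calc (S.card : ℝ) ≤ 4 * R := hcard'
      _ ≤ 4 * (2 ^ K * (X : ℝ) ^ (2 * η) * P ^ ((1 : ℝ) / 2)) := by linarith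
      _ = 4 * 2 ^ K * ((X : ℝ) ^ (2 * η) * P ^ ((1 : ℝ) / 2)) := by ring
      _ ≤ 4 * 2 ^ K * ((X : ℝ) ^ ((1 : ℝ) / 2) * (X : ℝ) ^ ε) :=
          mul_le_mul_of_nonneg_left h5 h6
      _ ≤ _ := by
          have : 0 ≤ 2 * C * ((X : ℝ) ^ ((1 : ℝ) / 2) * (X : ℝ) ^ ε) := by positivity
          linarith

/-- **Square-root bound.** The number of integer points `a`, `a_j ≥ 1`, `∏ a_j ≤ X`, at which
`|∑ β_j log a_j + τ| ≤ 1 / ∏ a_j` is at most `C X ^ (1 / 2 + ε)`, uniformly in the real numbers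
`β_j` with `|β_j| ≥ 1` and in `τ`. -/
theorem few2 {κ : Type*} [Fintype κ] [DecidableEq κ] [Nonempty κ] (ε : ℝ) (hε : 0 < ε) :
    ∃ C : ℝ, 0 < C ∧ ∀ X : ℕ, 1 ≤ X → ∀ (β : κ → ℝ) (τ : ℝ), (∀ j, 1 ≤ |β j|) →
      ∀ S : Finset (κ → ℕ), (∀ a ∈ S, (∀ j, 1 ≤ a j) ∧ ∏ j, a j ≤ X ∧
        |∑ j, β j * Real.log (a j) + τ| ≤ 1 / ∏ j, (a j : ℝ)) →
      (S.card : ℝ) ≤ C * (X : ℝ) ^ ((1 : ℝ) / 2 + ε) := by
  classical
  set m : ℕ := Fintype.card κ with hm
  have hm1 : 1 ≤ m := Fintype.card_pos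
  have hm0 : (0 : ℝ) < m := by exact_mod_cast hm1
  obtain ⟨C, hC0, hC⟩ := box_bound2 (κ := κ) (ε / 2) (by positivity)
  set δ : ℝ := ε / (2 * m) with hδ
  have hδ0 : 0 < δ := by positivity
  have hl2 : 0 < Real.log 2 := Real.log_pos (by norm_num)
  set C' : ℝ := 1 + 1 / (δ * Real.log 2) with hC'
  have hC'0 : 0 < C' := by positivity
  refine ⟨C' ^ m * C, by positivity, fun A hA β τ hβ S hS => ?_⟩
  have hA1 : (1 : ℝ) ≤ A := by exact_mod_cast hA
  have hA0 : (0 : ℝ) < A := by linarith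
  set idx : Finset (κ → ℕ) := Fintype.piFinset fun _ => range (Nat.log 2 A + 1) with hidx
  have hlog : ((Nat.log 2 A + 1 : ℕ) : ℝ) ≤ C' * (A : ℝ) ^ δ := by
    have h1 : ((2 : ℝ) ^ Nat.log 2 A) ≤ A := by
      have := Nat.pow_log_le_self 2 (by omega : A ≠ 0)
      exact_mod_cast this
    have h2 : 1 + (Nat.log 2 A : ℝ) * (δ * Real.log 2) ≤ (A : ℝ) ^ δ := by
      calc 1 + (Nat.log 2 A : ℝ) * (δ * Real.log 2) ≤
            Real.exp ((Nat.log 2 A : ℝ) * (δ * Real.log 2)) := by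
              have := Real.add_one_le_exp ((Nat.log 2 A : ℝ) * (δ * Real.log 2))
              linarith
        _ = ((2 : ℝ) ^ Nat.log 2 A) ^ δ := by
            rw [← Real.rpow_natCast, ← Real.rpow_mul (by norm_num),
              Real.rpow_def_of_pos (by norm_num)]
            congr 1
            ring
        _ ≤ (A : ℝ) ^ δ := Real.rpow_le_rpow (by positivity) h1 hδ0.le
    have h3 : (Nat.log 2 A : ℝ) ≤ 1 / (δ * Real.log 2) * (A : ℝ) ^ δ := by
      rw [one_div, ← div_eq_inv_mul, le_div_iff₀ (by positivity)]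
      linarith
    have h4 : (1 : ℝ) ≤ (A : ℝ) ^ δ := Real.one_le_rpow hA1 hδ0.le
    push_cast
    rw [hC']
    linarith
  have hidxc : (idx.card : ℝ) ≤ C' ^ m * (A : ℝ) ^ (ε / 2) := by
    rw [hidx, Fintype.card_piFinset, prod_const, card_univ, card_range, ← hm]
    push_cast at hlog ⊢
    calc ((Nat.log 2 A : ℝ) + 1) ^ m ≤ (C' * (A : ℝ) ^ δ) ^ m :=
          pow_le_pow_left₀ (by positivity) hlog _
      _ = C' ^ m * (A : ℝ) ^ (ε / 2) := by
          rw [mul_pow, ← Real.rpow_natCast ((A : ℝ) ^ δ), ← Real.rpow_mul hA0.le]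
          congr 2
          rw [hδ]
          field_simp
  have hcover : S ⊆ idx.biUnion fun s => S.filter fun a => ∀ j, Nat.log 2 (a j) = s j := by
    intro a ha
    rw [mem_biUnion]
    refine ⟨fun j => Nat.log 2 (a j), ?_, ?_⟩
    · rw [hidx, Fintype.mem_piFinset]
      intro j
      rw [mem_range]
      obtain ⟨h1, h2, -⟩ := hS a ha
      have h3 : a j ≤ A := by
        refine le_trans (Nat.le_of_dvd ?_ (dvd_prod_of_mem _ (mem_univ j))) h2
        exact Nat.pos_of_ne_zero (prod_ne_zero_iff.2 fun i _ => by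
          have := h1 i
          omega)
      exact Nat.lt_succ_of_le (Nat.log_mono_right h3)
    · rw [mem_filter]
      exact ⟨ha, fun j => rfl⟩
  have hbox : ∀ s ∈ idx, ((S.filter fun a => ∀ j, Nat.log 2 (a j) = s j).card : ℝ) ≤
      C * (A : ℝ) ^ ((1 : ℝ) / 2 + ε / 2) := by
    intro s hs
    rcases (S.filter fun a => ∀ j, Nat.log 2 (a j) = s j).eq_empty_or_nonempty with h0 | ⟨a0, ha0⟩
    · rw [h0, card_empty]
      push_cast
      positivity
    have hple : ∀ a ∈ S.filter (fun a => ∀ j, Nat.log 2 (a j) = s j),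
        ∀ j, 2 ^ s j ≤ a j := by
      intro a ha j
      rw [mem_filter] at ha
      have h1 := (hS a ha.1).1 j
      rw [← ha.2 j]
      exact Nat.pow_log_le_self 2 (by omega)
    refine hC A (fun j => 2 ^ s j) (fun j => Nat.one_le_two_pow) ?_ β τ hβ _ ?_ ?_
    · refine le_trans (prod_le_prod' fun j _ => hple a0 ha0 j) ?_
      exact (hS a0 (mem_filter.1 ha0).1).2.1
    · intro a ha
      rw [Fintype.mem_piFinset]
      intro j
      rw [mem_Ico]
      refine ⟨hple a ha j, ?_⟩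
      rw [mem_filter] at ha
      rw [← ha.2 j]
      have := Nat.lt_pow_succ_log_self (b := 2) (by norm_num) (a j)
      rwa [pow_succ, mul_comm] at this
    · intro a ha
      refine (hS a (mem_filter.1 ha).1).2.2.trans ?_
      apply one_div_le_one_div_of_le
      · exact prod_pos fun j _ => by positivity
      · refine prod_le_prod (fun j _ => by positivity) fun j _ => ?_
        exact_mod_cast hple a ha j
  calc (S.card : ℝ) ≤ ((idx.biUnion fun s => S.filter fun a => ∀ j, Nat.log 2 (a j) = s j).card :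
        ℝ) := by exact_mod_cast card_le_card hcover
    _ ≤ ∑ s ∈ idx, ((S.filter fun a => ∀ j, Nat.log 2 (a j) = s j).card : ℝ) := by
        exact_mod_cast card_biUnion_le
    _ ≤ ∑ _s ∈ idx, C * (A : ℝ) ^ ((1 : ℝ) / 2 + ε / 2) := sum_le_sum hbox
    _ = idx.card * (C * (A : ℝ) ^ ((1 : ℝ) / 2 + ε / 2)) := by rw [sum_const, nsmul_eq_mul]
    _ ≤ (C' ^ m * (A : ℝ) ^ (ε / 2)) * (C * (A : ℝ) ^ ((1 : ℝ) / 2 + ε / 2)) :=
        mul_le_mul_of_nonneg_right hidxc (by positivity)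
    _ = C' ^ m * C * ((A : ℝ) ^ (ε / 2) * (A : ℝ) ^ ((1 : ℝ) / 2 + ε / 2)) := by ring
    _ = C' ^ m * C * (A : ℝ) ^ ((1 : ℝ) / 2 + ε) := by
        rw [← Real.rpow_add hA0]
        congr 2
        ring

end Pool.Agent.TH201.LW
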